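import Pool.Agent.RDO.Stmts

/-!
# Squad RDO, row CNF: conflicts
-/

set_option autoImplicit false

open MeasureTheory Module Submodule
open scoped ENNReal Pointwise

namespace Pool.Agent.RDO.H91

theorem ev_pi (θ : ℝ) : ev (θ + Real.pi) = - ev θ := by
  unfold ev
  ext i
  fin_cases i <;> simp

theorem ev_two_pi (θ : ℝ) : ev (θ + 2 * Real.pi) = ev θ := by
  unfold ev
  ext i
  fin_cases i <;> simp

theorem norm_ev (θ : ℝ) : ‖ev θ‖ = 1 := by
  unfold ev
  rw [EuclideanSpace.norm_eq]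
  simp [Fin.sum_univ_two, Real.cos_sq_add_sin_sq]

theorem continuous_ev : Continuous ev := by
  unfold ev
  fun_prop

theorem meas_Un {n : ℕ} (c : Fin n → P2) : MeasurableSet (Un c) :=
  MeasurableSet.iUnion fun i => Metric.isClosed_closedBall.measurableSet

theorem meas_pair {n : ℕ} {c : Fin n → P2} {k : P2 → Fin n} (hk : Near c k) (q : ℝ) :
    MeasurableSet {p : ℝ × P2 | p.2 ∈ Un c ∧ q ≤ inner ℝ (c (k p.2) - p.2) (ev p.1)} := by
  have h1 : Measurable fun z : P2 => c (k z) := (measurable_of_finite c).comp hk.meas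
  have h2 : Measurable fun p : ℝ × P2 => c (k p.2) - p.2 :=
    (h1.comp measurable_snd).sub measurable_snd
  have h3 : Measurable fun p : ℝ × P2 => ev p.1 := continuous_ev.measurable.comp measurable_fst
  have h4 : Measurable fun p : ℝ × P2 => (inner ℝ (c (k p.2) - p.2) (ev p.1) : ℝ) := h2.inner h3
  exact (measurable_snd (meas_Un c)).inter (measurableSet_le measurable_const h4)

theorem meas_vol {n : ℕ} {c : Fin n → P2} {k : P2 → Fin n} (hk : Near c k) (q : ℝ) :
    Measurable fun θ : ℝ => volume (Aw c k q θ) :=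
  measurable_measure_prodMk_left (meas_pair hk q)

theorem zc_sub {n : ℕ} (c : Fin n → P2) (k : P2 → Fin n) (s θ : ℝ) :
    Zc c k (s • ev θ) ⊆ Aw c k ((s - 2) / 2) θ ∪
      (fun z => z + s • ev θ) ⁻¹' Aw c k ((s - 2) / 2) (θ + Real.pi) := by
  rintro z ⟨hz, hzw, hd⟩
  by_contra hcon
  rw [Set.mem_union, not_or] at hcon
  obtain ⟨h1, h2⟩ := hcon
  have h1' : inner ℝ (c (k z) - z) (ev θ) < (s - 2) / 2 := by
    by_contra h
    exact h1 ⟨hz, not_lt.1 h⟩
  have h2' : inner ℝ (c (k (z + s • ev θ)) - (z + s • ev θ)) (ev (θ + Real.pi)) < (s - 2) / 2 := by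
    by_contra h
    exact h2 ⟨hzw, not_lt.1 h⟩
  rw [ev_pi, inner_neg_right] at h2'
  have h3 : inner ℝ (c (k (z + s • ev θ)) - c (k z)) (ev θ) ≤ 2 := by
    have h4 := real_inner_le_norm (c (k (z + s • ev θ)) - c (k z)) (ev θ)
    rw [norm_ev, mul_one, ← dist_eq_norm, dist_comm] at h4
    linarith
  have h5 : inner ℝ (s • ev θ) (ev θ) = s := by
    rw [real_inner_smul_left, real_inner_self_eq_norm_sq, norm_ev, one_pow, mul_one]
  have h6 : s • ev θ = (c (k z) - z) + (c (k (z + s • ev θ)) - c (k z)) -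
      (c (k (z + s • ev θ)) - (z + s • ev θ)) := by abel
  have h7 : inner ℝ (s • ev θ) (ev θ) = inner ℝ (c (k z) - z) (ev θ) +
      inner ℝ (c (k (z + s • ev θ)) - c (k z)) (ev θ) -
      inner ℝ (c (k (z + s • ev θ)) - (z + s • ev θ)) (ev θ) := by
    rw [← inner_add_left, ← inner_sub_left, ← h6]
  rw [h5] at h7
  linarith

/-- the integral over a period does not depend on the period -/
theorem per_int (F : ℝ → ℝ≥0∞) (hF : ∀ θ, F (θ + 2 * Real.pi) = F θ) :
    ∫⁻ θ in Set.Ioc 0 (2 * Real.pi), F (θ + Real.pi) = ∫⁻ θ in Set.Ioc 0 (2 * Real.pi), F θ := by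
  have h1 : ∫⁻ θ in Set.Ioc 0 (2 * Real.pi), F (θ + Real.pi) =
      ∫⁻ θ in Set.Ioc Real.pi (Real.pi + 2 * Real.pi), F θ := by
    rw [← lintegral_indicator measurableSet_Ioc, ← lintegral_indicator measurableSet_Ioc,
      ← lintegral_add_right_eq_self
        ((Set.Ioc Real.pi (Real.pi + 2 * Real.pi)).indicator fun θ => F θ) Real.pi]
    congr 1
    ext θ
    by_cases h : θ ∈ Set.Ioc 0 (2 * Real.pi)
    · have h' : θ + Real.pi ∈ Set.Ioc Real.pi (Real.pi + 2 * Real.pi) :=
        ⟨by linarith [h.1], by linarith [h.2]⟩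
      rw [Set.indicator_of_mem h, Set.indicator_of_mem h']
    · have h' : θ + Real.pi ∉ Set.Ioc Real.pi (Real.pi + 2 * Real.pi) := by
        intro h2
        exact h ⟨by linarith [h2.1], by linarith [h2.2]⟩
      rw [Set.indicator_of_notMem h, Set.indicator_of_notMem h']
  rw [h1]
  have hT : (0 : ℝ) < 2 * Real.pi := by positivity
  have h2 := (isAddFundamentalDomain_Ioc hT Real.pi).setLIntegral_eq
    (isAddFundamentalDomain_Ioc hT 0) F (by
      have hP : Function.Periodic F (2 * Real.pi) := hF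
      intro g x
      obtain ⟨g, hg⟩ := g
      rw [AddSubgroup.mem_zmultiples_iff] at hg
      obtain ⟨m, hm⟩ := hg
      change F (g + x) = F x
      rw [← hm, add_comm]
      exact hP.zsmul m x)
  rw [zero_add] at h2
  exact h2

theorem cnf : CnfStmt := by
  intro n c k hk s
  have h1 : ∀ θ : ℝ, volume (Zc c k (s • ev θ)) ≤ volume (Aw c k ((s - 2) / 2) θ) +
      volume (Aw c k ((s - 2) / 2) (θ + Real.pi)) := by
    intro θ
    refine (measure_mono (zc_sub c k s θ)).trans ((measure_union_le _ _).trans ?_)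
    rw [measure_preimage_add_right]
  calc ∫⁻ θ in Set.Ioc 0 (2 * Real.pi), volume (Zc c k (s • ev θ))
      ≤ ∫⁻ θ in Set.Ioc 0 (2 * Real.pi), (volume (Aw c k ((s - 2) / 2) θ) +
        volume (Aw c k ((s - 2) / 2) (θ + Real.pi))) := lintegral_mono h1
    _ = (∫⁻ θ in Set.Ioc 0 (2 * Real.pi), volume (Aw c k ((s - 2) / 2) θ)) +
        ∫⁻ θ in Set.Ioc 0 (2 * Real.pi), volume (Aw c k ((s - 2) / 2) (θ + Real.pi)) :=
      lintegral_add_left (meas_vol hk _) _
    _ = 2 * ∫⁻ θ in Set.Ioc 0 (2 * Real.pi), volume (Aw c k ((s - 2) / 2) θ) := by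
      have h2 := per_int (fun θ => volume (Aw c k ((s - 2) / 2) θ)) (by
        intro θ
        show volume (Aw c k ((s - 2) / 2) (θ + 2 * Real.pi)) = volume (Aw c k ((s - 2) / 2) θ)
        unfold Aw
        rw [ev_two_pi])
      rw [h2]
      exact (two_mul _).symm

end Pool.Agent.RDO.H91
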